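import Pool.Agent.Helper16.RC.Defs

/-! row NUM -/

set_option autoImplicit false

open Finset

namespace Pool.Agent.Helper16.RC

/-- the weights of the power series of `F - 699/10` in `k ^ 2 / 576` -/
def nw (j : ℕ) : ℕ := 228 + 88 * 2 ^ j + 208 * 4 ^ j + 52 * 5 ^ j + 86 * 8 ^ j

/-- the loop: two terms of the series in each step -/
def ngo (K : ℕ) : ℕ → ℕ → ℕ → ℕ → ℕ → ℕ → Bool
  | 0, n, P, Q, B, D => Nat.ble (100 * Q + 100 * (nw n * B)) (6895 * D + 100 * P)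
  | m + 1, n, P, Q, B, D =>
    ngo K m (n + 2) ((P + nw n * B) * ((576 * (n + 1) ^ 2) * (576 * (n + 2) ^ 2)))
      ((Q * (576 * (n + 1) ^ 2) + nw (n + 1) * (B * K)) * (576 * (n + 2) ^ 2)) (B * K * K)
      (D * ((576 * (n + 1) ^ 2) * (576 * (n + 2) ^ 2)))

def nchk (k : ℕ) : Bool := ngo (k * k) (k / 6 + 7) 0 0 0 1 1

def nall : ℕ → Bool
  | 0 => nchk 0
  | k + 1 => nchk (k + 1) && nall k

set_option maxRecDepth 100000 in
theorem nall_ok : nall 480 = true := by decide +kernel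

theorem nall_get : ∀ m k : ℕ, nall m = true → k ≤ m → nchk k = true := by
  intro m
  induction m with
  | zero =>
    intro k h hk
    rw [Nat.le_zero.1 hk]
    exact h
  | succ m ih =>
    intro k h hk
    unfold nall at h
    rw [Bool.and_eq_true] at h
    rcases Nat.lt_or_ge m k with h1 | h1
    · rw [show k = m + 1 by omega]
      exact h.1
    · exact ih k h.2 h1

/-- the partial sums -/
noncomputable def nT (K n : ℕ) : ℝ :=
  ∑ j ∈ range n, (-1 : ℝ) ^ j * ((nw j : ℝ) * (K : ℝ) ^ j / (576 ^ j * (j.factorial : ℝ) ^ 2))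

theorem ngo_sound (K : ℕ) : ∀ m n P Q B D : ℕ, Even n → (B : ℝ) = (K : ℝ) ^ n →
    (D : ℝ) = 576 ^ n * (n.factorial : ℝ) ^ 2 → (P : ℝ) - Q = D * nT K n →
    ngo K m n P Q B D = true → ∃ N : ℕ,
      95 / 100 ≤ 699 / 10 + nT K N - (nw N : ℝ) * (K : ℝ) ^ N / (576 ^ N * (N.factorial : ℝ) ^ 2) := by
  intro m
  induction m with
  | zero =>
    intro n P Q B D hn hB hD hPQ h
    refine ⟨n, ?_⟩
    unfold ngo at h
    have h1 := Nat.le_of_ble_eq_true h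
    have h2 : (100 * (Q : ℝ) + 100 * ((nw n : ℝ) * B)) ≤ 6895 * D + 100 * P := by exact_mod_cast h1
    have hDp : (0 : ℝ) < D := by
      rw [hD]
      positivity
    rw [← hD, ← hB]
    have h3 : nT K n = ((P : ℝ) - Q) / D := by
      rw [hPQ]
      field_simp
    rw [h3]
    have h4 : 699 / 10 + ((P : ℝ) - Q) / D - (nw n : ℝ) * B / D - 95 / 100 =
        (6895 * D + 100 * P - (100 * (Q : ℝ) + 100 * ((nw n : ℝ) * B))) / (100 * D) := by
      field_simp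
      ring
    have h5 : 0 ≤ (6895 * (D : ℝ) + 100 * P - (100 * (Q : ℝ) + 100 * ((nw n : ℝ) * B))) / (100 * D) :=
      div_nonneg (by linarith) (by positivity)
    linarith
  | succ m ih =>
    intro n P Q B D hn hB hD hPQ h
    unfold ngo at h
    refine ih (n + 2) _ _ _ _ (hn.add (by decide)) ?_ ?_ ?_ h
    · push_cast
      rw [hB]
      ring
    · push_cast
      rw [hD, Nat.factorial_succ, Nat.factorial_succ]
      push_cast
      ring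
    · have hDp : (D : ℝ) ≠ 0 := by
        rw [hD]
        positivity
      unfold nT at hPQ ⊢
      rw [sum_range_succ, sum_range_succ]
      have e1 : (-1 : ℝ) ^ n = 1 := hn.neg_one_pow
      have e2 : (-1 : ℝ) ^ (n + 1) = -1 := by
        rw [pow_succ, e1]
        norm_num
      rw [e1, e2]
      have e3 : (P : ℝ) = Q + D * ∑ j ∈ range n,
          (-1 : ℝ) ^ j * ((nw j : ℝ) * (K : ℝ) ^ j / (576 ^ j * (j.factorial : ℝ) ^ 2)) := by
        rw [← hPQ]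
        ring
      push_cast
      rw [e3, hB]
      have e4 : (576 : ℝ) ^ n * (n.factorial : ℝ) ^ 2 = D := hD.symm
      have e5 : (576 : ℝ) ^ (n + 1) * ((n + 1).factorial : ℝ) ^ 2 = D * (576 * ((n : ℝ) + 1) ^ 2) := by
        rw [hD, Nat.factorial_succ]
        push_cast
        ring
      rw [e4, e5]
      have hn1 : (n : ℝ) + 1 ≠ 0 := by positivity
      field_simp
      ring

theorem st_NUM (hJT : ST_JT) : ST_NUM := by
  intro k hk
  have h0 := nall_get 480 k nall_ok hk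
  unfold nchk at h0
  obtain ⟨N, hN⟩ := ngo_sound (k * k) _ 0 0 0 1 1 (by decide) (by simp) (by simp)
    (by simp [nT]) h0
  refine hN.trans ?_
  have key : ∀ (d : ℝ) (t : ℝ), t ^ 2 = d → (∑ j ∈ range N, (-1 : ℝ) ^ j * (d ^ j * ((k * k : ℕ) : ℝ) ^ j /
      (576 ^ j * (j.factorial : ℝ) ^ 2))) - d ^ N * ((k * k : ℕ) : ℝ) ^ N /
        (576 ^ N * (N.factorial : ℝ) ^ 2) ≤ J (t * ((k : ℝ) / 12)) := by
    intro d t ht
    have h1 := (abs_le.1 (hJT N (t * ((k : ℝ) / 12)))).1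
    have e0 : (t * ((k : ℝ) / 12)) ^ 2 / 4 = d * ((k * k : ℕ) : ℝ) / 576 := by
      push_cast
      rw [mul_pow, ht]
      ring
    rw [e0] at h1
    have e1 : ∀ j : ℕ, (d * ((k * k : ℕ) : ℝ) / 576) ^ j / (j.factorial : ℝ) ^ 2 =
        d ^ j * ((k * k : ℕ) : ℝ) ^ j / (576 ^ j * (j.factorial : ℝ) ^ 2) := by
      intro j
      rw [div_pow, mul_pow, div_div]
    have e2 : ∑ j ∈ range N, (-1 : ℝ) ^ j * (d * ((k * k : ℕ) : ℝ) / 576) ^ j / (j.factorial : ℝ) ^ 2 =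
        ∑ j ∈ range N, (-1 : ℝ) ^ j * (d ^ j * ((k * k : ℕ) : ℝ) ^ j / (576 ^ j * (j.factorial : ℝ) ^ 2)) := by
      refine sum_congr rfl fun j _ => ?_
      rw [mul_div_assoc, e1]
    rw [e1, e2] at h1
    linarith
  have k1 := key 1 1 (by norm_num)
  have k2 := key 2 √2 (Real.sq_sqrt (by norm_num))
  have k4 := key 4 2 (by norm_num)
  have k5 := key 5 √5 (Real.sq_sqrt (by norm_num))
  have k8 := key 8 √8 (Real.sq_sqrt (by norm_num))
  rw [one_mul] at k1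
  have hsum : nT (k * k) N - (nw N : ℝ) * ((k * k : ℕ) : ℝ) ^ N / (576 ^ N * (N.factorial : ℝ) ^ 2) =
      228 * ((∑ j ∈ range N, (-1 : ℝ) ^ j * ((1 : ℝ) ^ j * ((k * k : ℕ) : ℝ) ^ j /
        (576 ^ j * (j.factorial : ℝ) ^ 2))) - (1 : ℝ) ^ N * ((k * k : ℕ) : ℝ) ^ N /
        (576 ^ N * (N.factorial : ℝ) ^ 2)) +
      88 * ((∑ j ∈ range N, (-1 : ℝ) ^ j * ((2 : ℝ) ^ j * ((k * k : ℕ) : ℝ) ^ j /
        (576 ^ j * (j.factorial : ℝ) ^ 2))) - (2 : ℝ) ^ N * ((k * k : ℕ) : ℝ) ^ N /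
        (576 ^ N * (N.factorial : ℝ) ^ 2)) +
      208 * ((∑ j ∈ range N, (-1 : ℝ) ^ j * ((4 : ℝ) ^ j * ((k * k : ℕ) : ℝ) ^ j /
        (576 ^ j * (j.factorial : ℝ) ^ 2))) - (4 : ℝ) ^ N * ((k * k : ℕ) : ℝ) ^ N /
        (576 ^ N * (N.factorial : ℝ) ^ 2)) +
      52 * ((∑ j ∈ range N, (-1 : ℝ) ^ j * ((5 : ℝ) ^ j * ((k * k : ℕ) : ℝ) ^ j /
        (576 ^ j * (j.factorial : ℝ) ^ 2))) - (5 : ℝ) ^ N * ((k * k : ℕ) : ℝ) ^ N /
        (576 ^ N * (N.factorial : ℝ) ^ 2)) +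
      86 * ((∑ j ∈ range N, (-1 : ℝ) ^ j * ((8 : ℝ) ^ j * ((k * k : ℕ) : ℝ) ^ j /
        (576 ^ j * (j.factorial : ℝ) ^ 2))) - (8 : ℝ) ^ N * ((k * k : ℕ) : ℝ) ^ N /
        (576 ^ N * (N.factorial : ℝ) ^ 2)) := by
    unfold nT
    have e : ∀ j : ℕ, (nw j : ℝ) = 228 * (1 : ℝ) ^ j + 88 * 2 ^ j + 208 * 4 ^ j + 52 * 5 ^ j + 86 * 8 ^ j := by
      intro j
      unfold nw
      push_cast
      rw [one_pow, mul_one]
    have e' : ∑ j ∈ range N, (-1 : ℝ) ^ j * ((nw j : ℝ) * ((k * k : ℕ) : ℝ) ^ j / (576 ^ j * (j.factorial : ℝ) ^ 2)) =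
        228 * (∑ j ∈ range N, (-1 : ℝ) ^ j * ((1 : ℝ) ^ j * ((k * k : ℕ) : ℝ) ^ j / (576 ^ j * (j.factorial : ℝ) ^ 2))) +
        88 * (∑ j ∈ range N, (-1 : ℝ) ^ j * ((2 : ℝ) ^ j * ((k * k : ℕ) : ℝ) ^ j / (576 ^ j * (j.factorial : ℝ) ^ 2))) +
        208 * (∑ j ∈ range N, (-1 : ℝ) ^ j * ((4 : ℝ) ^ j * ((k * k : ℕ) : ℝ) ^ j / (576 ^ j * (j.factorial : ℝ) ^ 2))) +
        52 * (∑ j ∈ range N, (-1 : ℝ) ^ j * ((5 : ℝ) ^ j * ((k * k : ℕ) : ℝ) ^ j / (576 ^ j * (j.factorial : ℝ) ^ 2))) +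
        86 * (∑ j ∈ range N, (-1 : ℝ) ^ j * ((8 : ℝ) ^ j * ((k * k : ℕ) : ℝ) ^ j / (576 ^ j * (j.factorial : ℝ) ^ 2))) := by
      rw [mul_sum, mul_sum, mul_sum, mul_sum, mul_sum, ← sum_add_distrib, ← sum_add_distrib,
        ← sum_add_distrib, ← sum_add_distrib]
      refine sum_congr rfl fun j _ => ?_
      rw [e]
      ring
    rw [e', e]
    ring
  unfold F
  linarith

end Pool.Agent.Helper16.RC
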