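import Mathlib

/-! Invariant mean on the bounded functions on `Fin d → ℤ` (MP_c9c10f) -/

set_option autoImplicit false

open Filter Topology

namespace Pool.Agent.Helper73.RC

/-- bounded functions -/
def Bd {G : Type*} (f : G → ℝ) : Prop := ∃ C : ℝ, ∀ x, |f x| ≤ C

/-- an invariant mean on the bounded functions on an additive group -/
structure IsMean {G : Type*} [AddCommGroup G] (M : (G → ℝ) → ℝ) : Prop where
  add : ∀ f g, Bd f → Bd g → M (fun x => f x + g x) = M f + M g
  smul : ∀ (c : ℝ) f, Bd f → M (fun x => c * f x) = c * M f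
  nonneg : ∀ f, Bd f → (∀ x, 0 ≤ f x) → 0 ≤ M f
  one : M (fun _ => 1) = 1
  inv : ∀ f (t : G), Bd f → M (fun x => f (x + t)) = M f

theorem Bd.add {G : Type*} {f g : G → ℝ} (hf : Bd f) (hg : Bd g) : Bd (fun x => f x + g x) := by
  obtain ⟨C, hC⟩ := hf
  obtain ⟨D, hD⟩ := hg
  exact ⟨C + D, fun x => (abs_add_le _ _).trans (add_le_add (hC x) (hD x))⟩

theorem Bd.smul {G : Type*} {f : G → ℝ} (hf : Bd f) (c : ℝ) : Bd (fun x => c * f x) := by
  obtain ⟨C, hC⟩ := hf
  exact ⟨|c| * C, fun x => by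
    rw [abs_mul]
    exact mul_le_mul_of_nonneg_left (hC x) (abs_nonneg _)⟩

theorem Bd.shift {G : Type*} [Add G] {f : G → ℝ} (hf : Bd f) (t : G) : Bd (fun x => f (x + t)) := by
  obtain ⟨C, hC⟩ := hf
  exact ⟨C, fun x => hC _⟩

theorem Bd.of_le {G : Type*} {f : G → ℝ} {C : ℝ} (h : ∀ x, |f x| ≤ C) : Bd f := ⟨C, h⟩

theorem Bd.const {G : Type*} (c : ℝ) : Bd (fun _ : G => c) := ⟨|c|, fun _ => le_rfl⟩

section Mean
variable {G : Type*} [AddCommGroup G] {M : (G → ℝ) → ℝ}

theorem IsMean.sub (h : IsMean M) {f g : G → ℝ} (hf : Bd f) (hg : Bd g) :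
    M (fun x => f x - g x) = M f - M g := by
  have h1 := h.add f (fun x => (-1) * g x) hf (hg.smul (-1))
  rw [h.smul (-1) g hg] at h1
  have e : (fun x => f x - g x) = fun x => f x + (-1) * g x := by
    funext x
    ring
  rw [e, h1]
  ring

theorem IsMean.mono (h : IsMean M) {f g : G → ℝ} (hf : Bd f) (hg : Bd g) (hfg : ∀ x, f x ≤ g x) :
    M f ≤ M g := by
  have hb : Bd (fun x => g x - f x) := by
    have := hg.add (hf.smul (-1))
    refine (show (fun x => g x - f x) = fun x => g x + (-1) * f x by funext x; ring) ▸ this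
  have h1 := h.nonneg (fun x => g x - f x) hb fun x => sub_nonneg.2 (hfg x)
  rw [h.sub hg hf] at h1
  linarith

theorem IsMean.const (h : IsMean M) (c : ℝ) : M (fun _ => c) = c := by
  have h1 := h.smul c (fun _ => 1) (Bd.const 1)
  rw [h.one, mul_one] at h1
  exact h1

theorem IsMean.sum (h : IsMean M) {ι : Type*} (s : Finset ι) (f : ι → G → ℝ) (hf : ∀ i ∈ s, Bd (f i)) :
    Bd (fun x => ∑ i ∈ s, f i x) ∧ M (fun x => ∑ i ∈ s, f i x) = ∑ i ∈ s, M (f i) := by
  classical
  induction s using Finset.induction_on with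
  | empty =>
    simp only [Finset.sum_empty]
    exact ⟨Bd.const 0, h.const 0⟩
  | insert i s hi ih =>
    obtain ⟨h1, h2⟩ := ih fun j hj => hf j (Finset.mem_insert_of_mem hj)
    have h3 := hf i (Finset.mem_insert_self i s)
    simp only [Finset.sum_insert hi]
    exact ⟨h3.add h1, by rw [h.add _ _ h3 h1, h2]⟩

end Mean

/-- a limit of bounded real sequences along an ultrafilter -/
theorem exists_ulim : ∃ L : (ℕ → ℝ) → ℝ, ∀ f : ℕ → ℝ, Bd f →
    Tendsto f (Ultrafilter.of (atTop : Filter ℕ) : Filter ℕ) (𝓝 (L f)) := by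
  have h : ∀ f : ℕ → ℝ, ∃ l : ℝ, Bd f →
      Tendsto f (Ultrafilter.of (atTop : Filter ℕ) : Filter ℕ) (𝓝 l) := by
    intro f
    by_cases hf : Bd f
    · obtain ⟨C, hC⟩ := hf
      have hK : IsCompact (Set.Icc (-C) C) := isCompact_Icc
      have h1 : ((Ultrafilter.of (atTop : Filter ℕ)).map f : Filter ℝ) ≤ 𝓟 (Set.Icc (-C) C) := by
        rw [le_principal_iff]
        refine Filter.mem_map.2 (Filter.mem_of_superset Filter.univ_mem fun n _ => ?_)
        exact abs_le.1 (hC n)
      obtain ⟨l, -, hl⟩ := hK.ultrafilter_le_nhds _ h1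
      exact ⟨l, fun _ => hl⟩
    · exact ⟨0, fun h => absurd h hf⟩
  choose L hL using h
  exact ⟨L, hL⟩

/-- the average over `0, ..., n` -/
noncomputable def avg {G : Type*} [AddCommGroup G] (e : G) (f : G → ℝ) (n : ℕ) (x : G) : ℝ :=
  (∑ k ∈ Finset.range (n + 1), f (x + k • e)) / (n + 1)

section Step
variable {G : Type*} [AddCommGroup G]

theorem avg_le {e : G} {f : G → ℝ} {C : ℝ} (hC : ∀ x, |f x| ≤ C) (n : ℕ) (x : G) : |avg e f n x| ≤ C := by
  unfold avg
  rw [abs_div, abs_of_nonneg (show (0 : ℝ) ≤ (n : ℝ) + 1 by positivity), div_le_iff₀ (by positivity)]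
  calc |∑ k ∈ Finset.range (n + 1), f (x + k • e)| ≤ ∑ k ∈ Finset.range (n + 1), |f (x + k • e)| :=
        Finset.abs_sum_le_sum_abs _ _
    _ ≤ ∑ _k ∈ Finset.range (n + 1), C := Finset.sum_le_sum fun k _ => hC _
    _ = C * (n + 1) := by
        rw [Finset.sum_const, Finset.card_range, nsmul_eq_mul]
        push_cast
        ring

theorem avg_shift (e : G) (f : G → ℝ) (n : ℕ) (x : G) :
    avg e f n (x + e) - avg e f n x = (f (x + (n + 1) • e) - f x) / (n + 1) := by
  unfold avg
  rw [← sub_div]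
  congr 1
  have h1 : ∑ k ∈ Finset.range (n + 1), f (x + e + k • e) =
      ∑ k ∈ Finset.range (n + 1), f (x + (k + 1) • e) := by
    refine Finset.sum_congr rfl fun k _ => ?_
    congr 1
    rw [add_smul, one_smul]
    abel
  have h2 := Finset.sum_range_succ' (fun k => f (x + k • e)) (n + 1)
  have h3 := Finset.sum_range_succ (fun k => f (x + k • e)) (n + 1)
  rw [h1]
  simp only [zero_smul, add_zero] at h2
  linarith

/-- `T f x = lim avg`: invariance of the values under `e` -/
theorem exists_op (e : G) : ∃ T : (G → ℝ) → G → ℝ,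
    (∀ f C, (∀ x, |f x| ≤ C) → ∀ x, |T f x| ≤ C) ∧
    (∀ f g, Bd f → Bd g → T (fun x => f x + g x) = fun x => T f x + T g x) ∧
    (∀ (c : ℝ) f, Bd f → T (fun x => c * f x) = fun x => c * T f x) ∧
    (∀ f, Bd f → (∀ x, 0 ≤ f x) → ∀ x, 0 ≤ T f x) ∧
    (T (fun _ => 1) = fun _ => 1) ∧
    (∀ f (t : G), Bd f → T (fun x => f (x + t)) = fun x => T f (x + t)) ∧
    (∀ f x, Bd f → T f (x + e) = T f x) := by
  obtain ⟨L, hL⟩ := exists_ulim
  set U : Filter ℕ := (Ultrafilter.of (atTop : Filter ℕ) : Filter ℕ) with hU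
  have hUa : U ≤ atTop := Ultrafilter.of_le _
  have : U.NeBot := (Ultrafilter.of (atTop : Filter ℕ)).neBot
  have hb : ∀ {f : G → ℝ}, Bd f → ∀ x, Bd (fun n => avg e f n x) := by
    rintro f ⟨C, hC⟩ x
    exact ⟨C, fun n => avg_le hC n x⟩
  have hlim : ∀ {f : G → ℝ}, Bd f → ∀ x, Tendsto (fun n => avg e f n x) U (𝓝 (L fun n => avg e f n x)) :=
    fun hf x => hL _ (hb hf x)
  refine ⟨fun f x => L (fun n => avg e f n x), ?_, ?_, ?_, ?_, ?_, ?_, ?_⟩
  · intro f C hC x
    have h1 := (hlim (f := f) ⟨C, hC⟩ x).abs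
    exact le_of_tendsto h1 (Eventually.of_forall fun n => avg_le hC n x)
  · intro f g hf hg
    funext x
    refine tendsto_nhds_unique (hlim (hf.add hg) x) ?_
    refine ((hlim hf x).add (hlim hg x)).congr fun n => ?_
    unfold avg
    rw [← add_div, ← Finset.sum_add_distrib]
  · intro c f hf
    funext x
    refine tendsto_nhds_unique (hlim (hf.smul c) x) ?_
    refine ((hlim hf x).const_mul c).congr fun n => ?_
    unfold avg
    rw [← mul_div_assoc, Finset.mul_sum]
  · intro f hf h0 x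
    refine ge_of_tendsto (hlim hf x) (Eventually.of_forall fun n => ?_)
    unfold avg
    exact div_nonneg (Finset.sum_nonneg fun k _ => h0 _) (by positivity)
  · funext x
    refine tendsto_nhds_unique (hlim (Bd.const 1) x) ?_
    refine tendsto_const_nhds.congr fun n => ?_
    unfold avg
    rw [Finset.sum_const, Finset.card_range, nsmul_eq_mul, mul_one]
    push_cast
    rw [div_self (by positivity)]
  · intro f t hf
    funext x
    refine tendsto_nhds_unique (hlim (hf.shift t) x) ?_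
    refine (hlim hf (x + t)).congr fun n => ?_
    unfold avg
    congr 1
    refine Finset.sum_congr rfl fun k _ => ?_
    congr 1
    abel
  · intro f x hf
    obtain ⟨C, hC⟩ := hf
    have h1 := (hlim (f := f) ⟨C, hC⟩ (x + e)).sub (hlim (f := f) ⟨C, hC⟩ x)
    have h2 : Tendsto (fun n : ℕ => avg e f n (x + e) - avg e f n x) U (𝓝 0) := by
      have h3 : Tendsto (fun n : ℕ => 2 * C / ((n : ℝ) + 1)) U (𝓝 0) := by
        refine Tendsto.mono_left ?_ hUa
        exact (tendsto_const_nhds.div_atTop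
          (tendsto_atTop_add_const_right _ _ tendsto_natCast_atTop_atTop))
      refine squeeze_zero_norm (fun n => ?_) h3
      rw [avg_shift, norm_div, Real.norm_of_nonneg (show (0 : ℝ) ≤ (n : ℝ) + 1 by positivity)]
      refine div_le_div_of_nonneg_right ?_ (by positivity)
      rw [Real.norm_eq_abs]
      have h4 := hC (x + (n + 1) • e)
      have h5 := hC x
      have h6 := abs_sub (f (x + (n + 1) • e)) (f x)
      linarith
    have h3 := tendsto_nhds_unique h1 h2
    linarith

end Step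

/-- averaging successively over a finite list of directions -/
theorem exists_ops {G : Type*} [AddCommGroup G] (l : List G) : ∃ T : (G → ℝ) → G → ℝ,
    (∀ f C, (∀ x, |f x| ≤ C) → ∀ x, |T f x| ≤ C) ∧
    (∀ f g, Bd f → Bd g → T (fun x => f x + g x) = fun x => T f x + T g x) ∧
    (∀ (c : ℝ) f, Bd f → T (fun x => c * f x) = fun x => c * T f x) ∧
    (∀ f, Bd f → (∀ x, 0 ≤ f x) → ∀ x, 0 ≤ T f x) ∧
    (T (fun _ => 1) = fun _ => 1) ∧
    (∀ f (t : G), Bd f → T (fun x => f (x + t)) = fun x => T f (x + t)) ∧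
    (∀ f x, Bd f → ∀ e ∈ l, T f (x + e) = T f x) := by
  induction l with
  | nil =>
    exact ⟨fun f => f, fun f C h => h, fun _ _ _ _ => rfl, fun _ _ _ => rfl, fun _ _ h => h, rfl,
      fun _ _ _ => rfl, fun f x _ e he => absurd he (by simp)⟩
  | cons e l ih =>
    obtain ⟨T, a1, a2, a3, a4, a5, a6, a7⟩ := ih
    obtain ⟨T', b1, b2, b3, b4, b5, b6, b7⟩ := exists_op e
    have hbT : ∀ {f : G → ℝ}, Bd f → Bd (T f) := by
      rintro f ⟨C, hC⟩
      exact ⟨C, a1 f C hC⟩
    refine ⟨fun f => T' (T f), ?_, ?_, ?_, ?_, ?_, ?_, ?_⟩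
    · exact fun f C h => b1 _ C (a1 f C h)
    · intro f g hf hg
      show T' (T _) = _
      rw [a2 f g hf hg, b2 _ _ (hbT hf) (hbT hg)]
    · intro c f hf
      show T' (T _) = _
      rw [a3 c f hf, b3 c _ (hbT hf)]
    · exact fun f hf h => b4 _ (hbT hf) (a4 f hf h)
    · show T' (T _) = _
      rw [a5, b5]
    · intro f t hf
      show T' (T _) = _
      rw [a6 f t hf, b6 _ t (hbT hf)]
    · intro f x hf e' he'
      rcases List.mem_cons.1 he' with rfl | h
      · exact b7 _ x (hbT hf)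
      · have h1 : (fun x => T f (x + e')) = T f := by
          funext y
          exact a7 f y hf e' h
        have h2 := b6 (T f) e' (hbT hf)
        rw [h1] at h2
        exact (congrFun h2 x).symm

/-- an invariant mean on a finitely generated group -/
theorem exists_mean_of_list {G : Type*} [AddCommGroup G] (l : List G)
    (hl : AddSubgroup.closure {x | x ∈ l} = ⊤) : ∃ M : (G → ℝ) → ℝ, IsMean M := by
  obtain ⟨T, a1, a2, a3, a4, a5, a6, a7⟩ := exists_ops l
  refine ⟨fun f => T f 0, ⟨?_, ?_, ?_, ?_, ?_⟩⟩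
  · intro f g hf hg
    show T _ 0 = _
    rw [a2 f g hf hg]
  · intro c f hf
    show T _ 0 = _
    rw [a3 c f hf]
  · exact fun f hf h => a4 f hf h 0
  · show T _ 0 = _
    rw [a5]
  · intro f t hf
    show T _ 0 = _
    rw [a6 f t hf]
    show T f (0 + t) = T f 0
    have key : ∀ t : G, t ∈ AddSubgroup.closure {x | x ∈ l} → ∀ x, T f (x + t) = T f x := by
      intro t ht
      induction ht using AddSubgroup.closure_induction with
      | mem y hy => exact fun x => a7 f x hf y hy
      | zero => exact fun x => by rw [add_zero]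
      | add y z _ _ hy hz =>
        intro x
        rw [← add_assoc, hz, hy]
      | neg y _ hy =>
        intro x
        have := hy (x + -y)
        rw [neg_add_cancel_right] at this
        exact this.symm
    exact key t (by rw [hl]; exact AddSubgroup.mem_top t) 0

/-- MEAN: there is an invariant mean on the bounded functions on `ℤ^d` -/
theorem exists_mean (d : ℕ) : ∃ M : ((Fin d → ℤ) → ℝ) → ℝ, IsMean M := by
  refine exists_mean_of_list (List.ofFn fun i : Fin d => Pi.single i (1 : ℤ)) ?_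
  rw [eq_top_iff]
  intro x _
  have h1 : x = ∑ i, (x i) • (Pi.single i (1 : ℤ) : Fin d → ℤ) := by
    funext j
    simp [Finset.sum_apply, Pi.single_apply]
  rw [h1]
  refine AddSubgroup.sum_mem _ fun i _ => AddSubgroup.zsmul_mem _ (AddSubgroup.subset_closure ?_) _
  simp [List.mem_ofFn]

end Pool.Agent.Helper73.RC
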