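import Pool.Agent.Helper73.RC.MEAN

/-! Invariant mean on the bounded functions on an arbitrary additive commutative group (MP_c9c10f):
ultrafilter limit, over the finite subsets `F`, of a mean which is invariant under `F`. -/

set_option autoImplicit false

open Filter Topology

namespace Pool.Agent.Helper73.RC

/-- a limit of bounded real families along an ultrafilter finer than `atTop` -/
theorem exists_ulim' (I : Type*) [SemilatticeSup I] [Nonempty I] :
    ∃ L : (I → ℝ) → ℝ, ∀ f : I → ℝ, Bd f →
      Tendsto f (Ultrafilter.of (atTop : Filter I) : Filter I) (𝓝 (L f)) := by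
  have h : ∀ f : I → ℝ, ∃ l : ℝ, Bd f →
      Tendsto f (Ultrafilter.of (atTop : Filter I) : Filter I) (𝓝 l) := by
    intro f
    by_cases hf : Bd f
    · obtain ⟨C, hC⟩ := hf
      have hK : IsCompact (Set.Icc (-C) C) := isCompact_Icc
      have h1 : ((Ultrafilter.of (atTop : Filter I)).map f : Filter ℝ) ≤ 𝓟 (Set.Icc (-C) C) := by
        rw [le_principal_iff]
        refine Filter.mem_map.2 (Filter.mem_of_superset Filter.univ_mem fun n _ => ?_)
        exact abs_le.1 (hC n)
      obtain ⟨l, -, hl⟩ := hK.ultrafilter_le_nhds _ h1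
      exact ⟨l, fun _ => hl⟩
    · exact ⟨0, fun h => absurd h hf⟩
  choose L hL using h
  exact ⟨L, hL⟩

/-- MEANG: every additive commutative group has an invariant mean on its bounded functions -/
theorem exists_mean_group (G : Type*) [AddCommGroup G] : ∃ M : (G → ℝ) → ℝ, IsMean M := by
  classical
  choose T a1 a2 a3 a4 a5 a6 a7 using fun F : Finset G => exists_ops F.toList
  obtain ⟨L, hL⟩ := exists_ulim' (Finset G)
  set U : Filter (Finset G) := (Ultrafilter.of (atTop : Filter (Finset G)) : Filter (Finset G))
    with hU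
  have hUa : U ≤ atTop := Ultrafilter.of_le _
  have : U.NeBot := (Ultrafilter.of (atTop : Filter (Finset G))).neBot
  have hb : ∀ {f : G → ℝ}, Bd f → Bd (fun F => T F f 0) := by
    rintro f ⟨C, hC⟩
    exact ⟨C, fun F => a1 F f C hC 0⟩
  have hlim : ∀ {f : G → ℝ}, Bd f → Tendsto (fun F => T F f 0) U (𝓝 (L fun F => T F f 0)) :=
    fun hf => hL _ (hb hf)
  refine ⟨fun f => L (fun F => T F f 0), ⟨?_, ?_, ?_, ?_, ?_⟩⟩
  · intro f g hf hg
    refine tendsto_nhds_unique (hlim (hf.add hg)) ?_
    refine ((hlim hf).add (hlim hg)).congr fun F => ?_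
    rw [a2 F f g hf hg]
  · intro c f hf
    refine tendsto_nhds_unique (hlim (hf.smul c)) ?_
    refine ((hlim hf).const_mul c).congr fun F => ?_
    rw [a3 F c f hf]
  · intro f hf h0
    exact ge_of_tendsto (hlim hf) (Eventually.of_forall fun F => a4 F f hf h0 0)
  · refine tendsto_nhds_unique (hlim (Bd.const 1)) ?_
    refine tendsto_const_nhds.congr fun F => ?_
    rw [a5 F]
  · intro f t hf
    refine tendsto_nhds_unique (hlim (hf.shift t)) ?_
    refine (hlim hf).congr' ?_
    have h1 : ∀ᶠ F in U, t ∈ F := by
      refine hUa ?_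
      filter_upwards [eventually_ge_atTop ({t} : Finset G)] with F hF
      exact hF (Finset.mem_singleton_self t)
    filter_upwards [h1] with F hF
    rw [a6 F f t hf]
    exact (a7 F f 0 hf t (Finset.mem_toList.2 hF)).symm

end Pool.Agent.Helper73.RC
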