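import Pool.Agent.Helper73.RC.MEANG

/-! PHI (MP_c9c10f): from a two-colouring of the plane (no measurability) to a radial positive
definite function: mean over the translations and over the rotations. -/

set_option autoImplicit false

open Complex

namespace Pool.Agent.Helper73.RC

theorem Bd.mul {G : Type*} {f g : G → ℝ} (hf : Bd f) (hg : Bd g) : Bd (fun x => f x * g x) := by
  obtain ⟨C, hC⟩ := hf
  obtain ⟨D, hD⟩ := hg
  refine ⟨C * D, fun x => ?_⟩
  rw [abs_mul]
  exact mul_le_mul (hC x) (hD x) (abs_nonneg _) ((abs_nonneg _).trans (hC x))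

section
variable {G : Type*} [AddCommGroup G] {M : (G → ℝ) → ℝ}

theorem IsMean.abs_le' (h : IsMean M) {f : G → ℝ} {C : ℝ} (hf : ∀ x, |f x| ≤ C) : |M f| ≤ C := by
  have hb : Bd f := ⟨C, hf⟩
  refine abs_le.2 ⟨?_, ?_⟩
  · have h1 := h.mono (Bd.const (-C)) hb (fun x => (abs_le.1 (hf x)).1)
    rwa [h.const] at h1
  · have h1 := h.mono hb (Bd.const C) (fun x => (abs_le.1 (hf x)).2)
    rwa [h.const] at h1

theorem IsMean.sum_smul (h : IsMean M) {ι : Type*} (s : Finset ι) (a : ι → ℝ) (f : ι → G → ℝ)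
    (hf : ∀ i, Bd (f i)) : M (fun x => ∑ i ∈ s, a i * f i x) = ∑ i ∈ s, a i * M (f i) := by
  have h1 := (h.sum s (fun i x => a i * f i x) (fun i _ => (hf i).smul (a i))).2
  rw [h1]
  exact Finset.sum_congr rfl fun i _ => h.smul (a i) (f i) (hf i)

theorem Bd.sum {ι : Type*} (s : Finset ι) (f : ι → G → ℝ) (hf : ∀ i, Bd (f i)) :
    Bd (fun x => ∑ i ∈ s, f i x) := by
  choose C hC using hf
  exact ⟨∑ i ∈ s, C i, fun x => (Finset.abs_sum_le_sum_abs _ _).trans
    (Finset.sum_le_sum fun i _ => hC i x)⟩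

end

/-- PHI.  `F` is the double mean of `c(z) c(z + u w)` as a function of `|w|²`. -/
theorem exists_phi (c : ℂ → ℝ) (hc : ∀ z, c z = 1 ∨ c z = -1) : ∃ F : ℝ → ℝ,
    F 0 = 1 ∧ (∀ t, |F t| ≤ 1) ∧
    (∀ (n : ℕ) (x : Fin n → ℂ) (w : Fin n → ℝ),
      0 ≤ ∑ i, ∑ j, w i * w j * F (normSq (x i - x j))) ∧
    (∀ (n : ℕ) (p q : Fin n → ℂ) (a : Fin n → ℝ) (K : ℝ) (s : ℂ) (h : ℂ → ℂ → ℝ),
      (∃ B : ℝ, ∀ z u, |h z u| ≤ B) →
      (∀ z u : ℂ, normSq u = 1 →
        ∑ t, a t * (c (z + u * p t) * c (z + u * q t)) ≤ K + (h z u - h (z + u * s) u)) →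
      ∑ t, a t * F (normSq (q t - p t)) ≤ K) := by
  obtain ⟨M, hM⟩ := exists_mean_group ℂ
  obtain ⟨M', hM'⟩ := exists_mean_group (Additive Circle)
  have hc1 : ∀ z, |c z| ≤ 1 := by
    intro z
    rcases hc z with h | h <;> rw [h] <;> norm_num
  have hcc : ∀ z w, |c z * c w| ≤ 1 := by
    intro z w
    rw [abs_mul]
    exact mul_le_one₀ (hc1 z) (abs_nonneg _) (hc1 w)
  -- the mean over the translations
  let ψ : ℂ → ℝ := fun w => M (fun x => c x * c (x + w))
  have hψ1 : ∀ w, |ψ w| ≤ 1 := fun w => hM.abs_le' (fun x => hcc _ _)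
  have hψ2 : ∀ p q : ℂ, M (fun x => c (x + p) * c (x + q)) = ψ (q - p) := by
    intro p q
    have h1 := hM.inv (fun x => c x * c (x + (q - p))) p ⟨1, fun x => hcc _ _⟩
    have e : (fun x => c (x + p) * c (x + p + (q - p))) = fun x => c (x + p) * c (x + q) := by
      funext x
      congr 2
      ring
    rw [← e]
    exact h1
  -- the mean over the rotations
  let φ : ℂ → ℝ := fun w => M' (fun θ => ψ ((θ.toMul : ℂ) * w))
  have hφ1 : ∀ w, |φ w| ≤ 1 := fun w => hM'.abs_le' (fun θ => hψ1 _)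
  have hφb : ∀ w, Bd (fun θ : Additive Circle => ψ ((θ.toMul : ℂ) * w)) :=
    fun w => ⟨1, fun θ => hψ1 _⟩
  have hφ2 : ∀ w w' : ℂ, normSq w = normSq w' → φ w = φ w' := by
    intro w w' h
    by_cases hw : w = 0
    · have : w' = 0 := by
        rw [hw, map_zero] at h
        exact normSq_eq_zero.1 h.symm
      rw [hw, this]
    · have hn : ‖w' / w‖ = 1 := by
        have hw' : ‖w‖ ≠ 0 := norm_ne_zero_iff.2 hw
        have h1 : ‖w‖ ^ 2 = ‖w'‖ ^ 2 := by
          rw [← normSq_eq_norm_sq, ← normSq_eq_norm_sq]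
          exact h
        have h2 : ‖w‖ = ‖w'‖ := (pow_left_inj₀ (norm_nonneg _) (norm_nonneg _) two_ne_zero).1 h1
        rw [norm_div, ← h2, div_self hw']
      let θ0 : Circle := ⟨w' / w, mem_sphere_zero_iff_norm.2 hn⟩
      have h1 := hM'.inv (fun θ => ψ ((θ.toMul : ℂ) * w)) (Additive.ofMul θ0) (hφb w)
      have e : (fun θ : Additive Circle => ψ (((θ + Additive.ofMul θ0).toMul : ℂ) * w)) =
          fun θ : Additive Circle => ψ ((θ.toMul : ℂ) * w') := by
        funext θ
        congr 1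
        show ((θ.toMul * θ0 : Circle) : ℂ) * w = _
        rw [Circle.coe_mul, mul_assoc]
        congr 1
        show w' / w * w = w'
        exact div_mul_cancel₀ w' hw
      show M' _ = M' _
      rw [← h1]
      exact congrArg M' e
  have hF : ∀ w : ℂ, φ ((Real.sqrt (normSq w) : ℝ) : ℂ) = φ w := by
    intro w
    refine hφ2 _ _ ?_
    rw [normSq_ofReal, Real.mul_self_sqrt (normSq_nonneg w)]
  refine ⟨fun t => φ ((Real.sqrt t : ℝ) : ℂ), ?_, fun t => hφ1 _, ?_, ?_⟩
  · have h1 : ψ 0 = 1 := by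
      show M (fun x => c x * c (x + 0)) = 1
      have e : (fun x => c x * c (x + 0)) = fun _ => 1 := by
        funext x
        rw [add_zero]
        rcases hc x with h | h <;> rw [h] <;> norm_num
      rw [e]
      exact hM.one
    have h2 : φ 0 = 1 := by
      show M' (fun θ => ψ ((θ.toMul : ℂ) * 0)) = 1
      simp only [mul_zero, h1]
      exact hM'.one
    simp only [Real.sqrt_zero, ofReal_zero]
    exact h2
  · intro n x w
    simp only [hF]
    -- positivity of `ψ` in every direction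
    have h1 : ∀ θ : ℂ, 0 ≤ ∑ i, ∑ j, w i * w j * ψ (θ * (x i - x j)) := by
      intro θ
      have h2 : M (fun z => (∑ i, w i * c (z + θ * x i)) ^ 2) =
          ∑ i, ∑ j, w i * w j * ψ (θ * (x i - x j)) := by
        have e : (fun z => (∑ i, w i * c (z + θ * x i)) ^ 2) =
            fun z => ∑ i, ∑ j, w i * w j * (c (z + θ * x j) * c (z + θ * x i)) := by
          funext z
          rw [sq, Finset.sum_mul_sum]
          refine Finset.sum_congr rfl fun i _ => Finset.sum_congr rfl fun j _ => ?_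
          ring
        rw [e]
        have hb : ∀ i j, Bd (fun z => c (z + θ * x j) * c (z + θ * x i)) :=
          fun i j => ⟨1, fun z => hcc _ _⟩
        rw [(hM.sum Finset.univ (fun i z => ∑ j, w i * w j * (c (z + θ * x j) * c (z + θ * x i)))
          (fun i _ => Bd.sum _ _ (fun j => (hb i j).smul _))).2]
        refine Finset.sum_congr rfl fun i _ => ?_
        rw [hM.sum_smul Finset.univ (fun j => w i * w j)
          (fun j z => c (z + θ * x j) * c (z + θ * x i)) (fun j => hb i j)]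
        refine Finset.sum_congr rfl fun j _ => ?_
        rw [hψ2, mul_sub]
      rw [← h2]
      have hb : Bd (fun z => ∑ i, w i * c (z + θ * x i)) :=
        Bd.sum _ _ (fun i => Bd.smul (f := fun z => c (z + θ * x i)) ⟨1, fun z => hc1 _⟩ (w i))
      refine hM.nonneg _ ?_ (fun z => sq_nonneg _)
      simp only [sq]
      exact hb.mul hb
    have h2 : M' (fun θ => ∑ i, ∑ j, w i * w j * ψ ((θ.toMul : ℂ) * (x i - x j))) =
        ∑ i, ∑ j, w i * w j * φ (x i - x j) := by
      rw [(hM'.sum Finset.univ (fun i θ => ∑ j, w i * w j * ψ ((θ.toMul : ℂ) * (x i - x j)))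
          (fun i _ => Bd.sum _ _ (fun j => (hφb _).smul _))).2]
      refine Finset.sum_congr rfl fun i _ => ?_
      exact hM'.sum_smul Finset.univ (fun j => w i * w j)
        (fun j θ => ψ ((θ.toMul : ℂ) * (x i - x j))) (fun j => hφb _)
    rw [← h2]
    exact hM'.nonneg _ (Bd.sum _ _ (fun i => Bd.sum _ _ (fun j => (hφb _).smul _)))
      (fun θ => h1 _)
  · rintro n p q a K s h ⟨B, hB⟩ hK
    simp only [hF]
    have h1 : ∀ u : ℂ, normSq u = 1 → ∑ t, a t * ψ (u * (q t - p t)) ≤ K := by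
      intro u hu
      have hb : ∀ t, Bd (fun z => c (z + u * p t) * c (z + u * q t)) :=
        fun t => ⟨1, fun z => hcc _ _⟩
      have hbh : Bd (fun z => h z u) := ⟨B, fun z => hB z u⟩
      have hbh' : Bd (fun z => h (z + u * s) u) := ⟨B, fun z => hB _ u⟩
      have hbh2 : Bd (fun z => h z u - h (z + u * s) u) := ⟨B + B, fun z => by
        have h3 := hB z u
        have h4 := hB (z + u * s) u
        exact (abs_sub _ _).trans (add_le_add h3 h4)⟩
      have h2 := hM.mono (Bd.sum _ _ (fun t => (hb t).smul (a t))) ((Bd.const K).add hbh2)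
        (fun z => hK z u hu)
      rw [hM.sum_smul Finset.univ a _ hb, hM.add _ _ (Bd.const K) hbh2, hM.const,
        hM.sub hbh hbh', hM.inv (fun z => h z u) (u * s) hbh, sub_self, add_zero] at h2
      refine le_trans (le_of_eq ?_) h2
      refine Finset.sum_congr rfl fun t _ => ?_
      rw [hψ2, mul_sub]
    have h2 : M' (fun θ => ∑ t, a t * ψ ((θ.toMul : ℂ) * (q t - p t))) =
        ∑ t, a t * φ (q t - p t) :=
      hM'.sum_smul Finset.univ a (fun t θ => ψ ((θ.toMul : ℂ) * (q t - p t))) (fun t => hφb _)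
    rw [← h2]
    have h3 := hM'.mono (Bd.sum _ _ (fun t => (hφb (q t - p t)).smul (a t))) (Bd.const K)
      (fun θ => h1 _ (by rw [normSq_eq_norm_sq, Circle.norm_coe]; norm_num))
    rwa [hM'.const] at h3

end Pool.Agent.Helper73.RC
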