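import Pool.Agent.Helper16.RC.Defs

/-! row PL -/

set_option autoImplicit false

open MeasureTheory
open scoped ContDiff FourierTransform

namespace Pool.Agent.Helper16.RC

theorem pl_fourier_ae_eq (f : ℂ → ℂ) (hf : Integrable f) (hf2 : MemLp f 2) :
    ((𝓕 (hf2.toLp f) : Lp ℂ 2 (volume : Measure ℂ)) : ℂ → ℂ) =ᵐ[volume] 𝓕 f := by
  apply ae_eq_of_integral_contDiff_smul_eq
  · exact (Lp.memLp _).locallyIntegrable (by norm_num)
  · apply Continuous.locallyIntegrable
    exact VectorFourier.fourierIntegral_continuous Real.continuous_fourierChar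
      (innerSL ℝ).continuous₂ hf
  · intro g hg hgc
    have hg₁ : HasCompactSupport (Complex.ofRealCLM ∘ g) := hgc.comp_left rfl
    have hg₂ : ContDiff ℝ ∞ (Complex.ofRealCLM ∘ g) := by fun_prop
    let G : SchwartzMap ℂ ℂ := hg₁.toSchwartzMap hg₂
    have hG : ∀ x, G x = (g x : ℂ) := fun x => rfl
    have h1 : ∫ x, g x • ((𝓕 (hf2.toLp f) : Lp ℂ 2 (volume : Measure ℂ)) : ℂ → ℂ) x =
        (Lp.toTemperedDistribution (𝓕 (hf2.toLp f) : Lp ℂ 2 (volume : Measure ℂ))) G := by
      rw [Lp.toTemperedDistribution_apply]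
      rfl
    rw [h1, ← Lp.fourier_toTemperedDistribution_eq, TemperedDistribution.fourier_apply,
      Lp.toTemperedDistribution_apply]
    have h2 : ∫ x, (𝓕 G) x • ((hf2.toLp f : Lp ℂ 2 (volume : Measure ℂ)) : ℂ → ℂ) x =
        ∫ x, (𝓕 G) x • f x := by
      apply integral_congr_ae
      filter_upwards [hf2.coeFn_toLp] with x hx
      rw [hx]
    rw [h2]
    have h3 := VectorFourier.integral_fourierIntegral_smul_eq_flip (μ := (volume : Measure ℂ))
      (ν := (volume : Measure ℂ))
      (L := innerₗ ℂ) (f := (G : ℂ → ℂ)) (g := f) Real.continuous_fourierChar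
      continuous_inner G.integrable hf
    rw [flip_innerₗ] at h3
    exact h3

/-- Plancherel's theorem for the Fourier integral of a function in `L¹ ∩ L²` -/
theorem pl_plancherel (f : ℂ → ℂ) (hf : Integrable f) (hf2 : MemLp f 2) :
    Integrable (fun ξ => ‖𝓕 f ξ‖ ^ 2) ∧ ∫ ξ, ‖𝓕 f ξ‖ ^ 2 = ∫ x, ‖f x‖ ^ 2 := by
  have hae := pl_fourier_ae_eq f hf hf2
  have hm : MemLp (𝓕 f) 2 (volume : Measure ℂ) := (Lp.memLp _).ae_eq hae
  have h1 : eLpNorm (𝓕 f) 2 volume = eLpNorm f 2 volume := by
    rw [← eLpNorm_congr_ae hae]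
    have h1 := Lp.norm_fourier_eq (hf2.toLp f)
    rw [Lp.norm_def, Lp.norm_def, ENNReal.toReal_eq_toReal_iff' (Lp.eLpNorm_ne_top _)
      (Lp.eLpNorm_ne_top _)] at h1
    rw [h1]
    exact eLpNorm_congr_ae hf2.coeFn_toLp
  refine ⟨(memLp_two_iff_integrable_sq_norm hm.1).1 hm, ?_⟩
  have e1 := hm.eLpNorm_eq_integral_rpow_norm (by norm_num) (by norm_num)
  have e2 := hf2.eLpNorm_eq_integral_rpow_norm (by norm_num) (by norm_num)
  rw [h1, e2] at e1
  have n1 : 0 ≤ ∫ x, ‖f x‖ ^ 2 := integral_nonneg fun x => by positivity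
  have n2 : 0 ≤ ∫ x, ‖𝓕 f x‖ ^ 2 := integral_nonneg fun x => by positivity
  simp only [ENNReal.toReal_ofNat, Real.rpow_two] at e1
  rw [ENNReal.ofReal_eq_ofReal_iff (by positivity) (by positivity)] at e1
  exact ((Real.rpow_left_inj n1 n2 (by norm_num)).1 e1).symm

theorem pl_norm_sq (t : ℝ) : ‖1 + Complex.exp (t * Complex.I)‖ ^ 2 = 2 + 2 * Real.cos t := by
  rw [← Complex.normSq_eq_norm_sq, Complex.normSq_apply, Complex.add_re, Complex.add_im,
    Complex.exp_ofReal_mul_I_re, Complex.exp_ofReal_mul_I_im, Complex.one_re, Complex.one_im]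
  nlinarith [Real.sin_sq_add_cos_sq t]

theorem st_PL : ST_PL := by
  intro g R hgm hg1 hgR
  have hball : ∀ x, x ∉ Metric.closedBall (0 : ℂ) R → g x = 0 := by
    intro x hx
    apply hgR
    rw [mem_closedBall_zero_iff] at hx
    exact lt_of_not_ge hx
  have hind : Integrable ((Metric.closedBall (0 : ℂ) R).indicator (fun _ => (1 : ℝ))) := by
    rw [integrable_indicator_iff measurableSet_closedBall]
    refine integrableOn_const (hs := ?_) (hC := by simp)
    exact (measure_closedBall_lt_top (μ := (volume : Measure ℂ))).ne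
  have hle : ∀ x, |g x| ≤ (Metric.closedBall (0 : ℂ) R).indicator (fun _ => (1 : ℝ)) x := by
    intro x
    by_cases hx : x ∈ Metric.closedBall (0 : ℂ) R
    · rw [Set.indicator_of_mem hx]
      exact hg1 x
    · rw [Set.indicator_of_notMem hx, hball x hx, abs_zero]
  have hgi : Integrable g := hind.mono' hgm.aestronglyMeasurable (Filter.Eventually.of_forall hle)
  have hsqle : ∀ x, g x ^ 2 ≤ |g x| := by
    intro x
    have h0 := abs_nonneg (g x)
    rw [← sq_abs]
    nlinarith [hg1 x]
  have hgs : Integrable (fun x => g x ^ 2) := hgi.abs.mono' (hgm.pow_const 2).aestronglyMeasurable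
    (Filter.Eventually.of_forall fun x => by
      rw [Real.norm_of_nonneg (sq_nonneg _)]
      exact hsqle x)
  set f : ℂ → ℂ := fun x => (g x : ℂ) with hf
  have hfm : Measurable f := Complex.measurable_ofReal.comp hgm
  have hfi : Integrable f := hgi.ofReal
  have hf2 : MemLp f 2 := by
    rw [memLp_two_iff_integrable_sq_norm hfm.aestronglyMeasurable]
    refine hgs.congr (Filter.Eventually.of_forall fun x => ?_)
    simp [hf, Complex.norm_real, sq_abs]
  have hP1 := pl_plancherel f hfi hf2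
  refine ⟨fun ξ => ‖𝓕 f ξ‖ ^ 2, fun ξ => by positivity, hP1.1, ?_⟩
  intro v
  -- the shifted function
  set h : ℂ → ℂ := fun x => f x + f (x + v) with hh
  have hfv : Integrable (fun x => f (x + v)) := hfi.comp_add_right v
  have hgv : Integrable (fun x => g (x + v)) := hgi.comp_add_right v
  have hgsv : Integrable (fun x => g (x + v) ^ 2) := hgs.comp_add_right v
  have hgmv : Measurable (fun x => g (x + v)) := hgm.comp (measurable_add_const v)
  have hprod : Integrable (fun x => g x * g (x + v)) := by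
    refine hgi.abs.mono' (hgm.mul hgmv).aestronglyMeasurable
      (Filter.Eventually.of_forall fun x => ?_)
    rw [Real.norm_eq_abs, abs_mul]
    have := hg1 (x + v)
    have h0 := abs_nonneg (g x)
    nlinarith
  have hhi : Integrable h := hfi.add hfv
  have hhn : ∀ x, ‖h x‖ ^ 2 = g x ^ 2 + 2 * (g x * g (x + v)) + g (x + v) ^ 2 := by
    intro x
    have : h x = ((g x + g (x + v) : ℝ) : ℂ) := by
      simp [hh, hf]
    rw [this, Complex.norm_real, Real.norm_eq_abs, sq_abs]
    ring
  have hh2 : MemLp h 2 := by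
    have hhm : AEStronglyMeasurable h volume :=
      (hfm.add (hfm.comp (measurable_add_const v))).aestronglyMeasurable
    rw [memLp_two_iff_integrable_sq_norm hhm]
    refine ((hgs.add (hprod.const_mul 2)).add hgsv).congr (Filter.Eventually.of_forall fun x => ?_)
    simp only [Pi.add_apply]
    exact (hhn x).symm
  have hP2 := pl_plancherel h hhi hh2
  -- the transform of the shift
  have hsh : ∀ ξ : ℂ, 𝓕 h ξ = (1 + Complex.exp ((2 * Real.pi * (v.re * ξ.re + v.im * ξ.im) : ℝ) *
      Complex.I)) * 𝓕 f ξ := by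
    intro ξ
    rw [Real.fourier_eq, Real.fourier_eq]
    have e1 : ∫ x, (Real.fourierChar (-inner ℝ x ξ) : Circle) • h x =
        (∫ x, (Real.fourierChar (-inner ℝ x ξ) : Circle) • f x) +
        ∫ x, (Real.fourierChar (-inner ℝ x ξ) : Circle) • f (x + v) := by
      rw [← integral_add]
      · congr 1
        funext x
        simp only [hh]
        rw [smul_add]
      · exact (Real.fourierIntegral_convergent_iff (w := ξ)).2 hfi
      · exact (Real.fourierIntegral_convergent_iff (w := ξ)).2 hfv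
    rw [e1]
    have e2 : ∫ x, (Real.fourierChar (-inner ℝ x ξ) : Circle) • f (x + v) =
        ∫ x, (Real.fourierChar (-inner ℝ (x - v) ξ) : Circle) • f x := by
      rw [← integral_add_right_eq_self (μ := (volume : Measure ℂ))
        (fun x => (Real.fourierChar (-inner ℝ (x - v) ξ) : Circle) • f x) v]
      congr 1
      funext x
      rw [add_sub_cancel_right]
    rw [e2, add_mul, one_mul]
    congr 1
    rw [← integral_const_mul]
    congr 1
    funext x
    rw [Circle.smul_def, Circle.smul_def, smul_eq_mul, smul_eq_mul, ← mul_assoc]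
    congr 1
    rw [Real.fourierChar_apply, Real.fourierChar_apply, ← Complex.exp_add]
    congr 1
    rw [inner_sub_left]
    have : inner ℝ v ξ = v.re * ξ.re + v.im * ξ.im := by
      rw [Complex.inner]
      simp
      ring
    rw [this]
    push_cast
    ring
  have hn : ∀ ξ, ‖𝓕 h ξ‖ ^ 2 = 2 * ‖𝓕 f ξ‖ ^ 2 + 2 * (‖𝓕 f ξ‖ ^ 2 *
      Real.cos (2 * Real.pi * (v.re * ξ.re + v.im * ξ.im))) := by
    intro ξ
    rw [hsh, norm_mul, mul_pow, pl_norm_sq]
    ring
  have hci : Integrable (fun ξ => ‖𝓕 f ξ‖ ^ 2 * Real.cos (2 * Real.pi * (v.re * ξ.re + v.im * ξ.im))) := by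
    refine hP1.1.mono' (hP1.1.aestronglyMeasurable.mul (by
      apply Continuous.aestronglyMeasurable
      fun_prop)) (Filter.Eventually.of_forall fun ξ => ?_)
    rw [norm_mul, Real.norm_of_nonneg (by positivity), Real.norm_eq_abs]
    have h0 : 0 ≤ ‖𝓕 f ξ‖ ^ 2 := by positivity
    have := Real.abs_cos_le_one (2 * Real.pi * (v.re * ξ.re + v.im * ξ.im))
    nlinarith
  have k1 := hP2.2
  simp only [hn, hhn] at k1
  rw [integral_add (hP1.1.const_mul 2) (hci.const_mul 2), integral_const_mul, integral_const_mul,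
    hP1.2, integral_add (f := fun x => g x ^ 2 + 2 * (g x * g (x + v)))
      (g := fun x => g (x + v) ^ 2) (hgs.add (hprod.const_mul 2)) hgsv] at k1
  have e3 : ∫ x, (g x ^ 2 + 2 * (g x * g (x + v))) =
      (∫ x, g x ^ 2) + 2 * ∫ x, g x * g (x + v) := by
    rw [integral_add hgs (hprod.const_mul 2), integral_const_mul]
  have e4 : ∫ x, g (x + v) ^ 2 = ∫ x, g x ^ 2 :=
    integral_add_right_eq_self (μ := (volume : Measure ℂ)) (fun x => g x ^ 2) v
  have e5 : ∫ x, ‖f x‖ ^ 2 = ∫ x, g x ^ 2 := by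
    congr 1
    funext x
    simp [hf, Complex.norm_real, sq_abs]
  rw [e3, e4, e5] at k1
  linarith

end Pool.Agent.Helper16.RC
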